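import Mathlib

/-!
A compact set of scatteredly continuous functions on the Baire space which is homeomorphic to a
compact convex subset of `ℝ^𝔠` and is not metrizable.
-/

open Set Filter Topology

namespace Pool.Agent.Results.MP_69956f_gt.NonMetrizable

/-- `f : X → ℝ` is scatteredly continuous: for every nonempty `A ⊆ X` the restriction `f|A` has a
point of continuity. -/
def ScatteredlyContinuous {X : Type} [TopologicalSpace X] (f : X → ℝ) : Prop :=
  ∀ A : Set X, A.Nonempty → ∃ a ∈ A, ContinuousWithinAt f A a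

/-- The positive part of the unit ball of `ℓ₁(ℝ)` (with the topology inherited from `ℝ^ℝ`). -/
def C : Set (ℝ → ℝ) := {x | (∀ t, 0 ≤ x t) ∧ ∀ F : Finset ℝ, ∑ t ∈ F, x t ≤ 1}

theorem convex_C : Convex ℝ C := by
  intro x hx y hy a b ha hb hab
  refine ⟨fun t => ?_, fun F => ?_⟩
  · simp only [Pi.add_apply, Pi.smul_apply, smul_eq_mul]
    exact add_nonneg (mul_nonneg ha (hx.1 t)) (mul_nonneg hb (hy.1 t))
  · simp only [Pi.add_apply, Pi.smul_apply, smul_eq_mul]
    rw [Finset.sum_add_distrib, ← Finset.mul_sum, ← Finset.mul_sum]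
    nlinarith [hx.2 F, hy.2 F]

theorem le_one_of_mem {x : ℝ → ℝ} (hx : x ∈ C) (t : ℝ) : x t ≤ 1 := by
  simpa using hx.2 {t}

theorem isCompact_C : IsCompact C := by
  have h1 : IsCompact (Set.pi univ (fun _ : ℝ => Set.Icc (0 : ℝ) 1)) :=
    isCompact_univ_pi fun _ => isCompact_Icc
  refine h1.of_isClosed_subset ?_ ?_
  · have e : C = (⋂ t : ℝ, {x : ℝ → ℝ | 0 ≤ x t}) ∩
        ⋂ F : Finset ℝ, {x : ℝ → ℝ | ∑ t ∈ F, x t ≤ 1} := by
      ext x
      simp [C]
    rw [e]
    refine IsClosed.inter ?_ ?_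
    · exact isClosed_iInter fun t => isClosed_le continuous_const (continuous_apply t)
    · exact isClosed_iInter fun F => isClosed_le
        (continuous_finset_sum _ fun t _ => continuous_apply t) continuous_const
  · intro x hx t _
    exact ⟨hx.1 t, le_one_of_mem hx t⟩

/-- For a member `x` of `C` only finitely many coordinates exceed `1/(n+1)`. -/
theorem finite_big {x : ℝ → ℝ} (hx : x ∈ C) (n : ℕ) : {t | 1 / ((n : ℝ) + 1) < x t}.Finite := by
  by_contra hinf
  obtain ⟨F, hF, hcard⟩ := Set.Infinite.exists_subset_card_eq hinf (n + 2)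
  have h1 : ∑ t ∈ F, (1 / ((n : ℝ) + 1)) ≤ ∑ t ∈ F, x t :=
    Finset.sum_le_sum fun t ht => le_of_lt (hF ht)
  rw [Finset.sum_const, hcard, nsmul_eq_mul] at h1
  have h2 := hx.2 F
  have hn : (0 : ℝ) < (n : ℝ) + 1 := by positivity
  have h3 : ((n + 2 : ℕ) : ℝ) * (1 / ((n : ℝ) + 1)) > 1 := by
    rw [mul_one_div, gt_iff_lt, lt_div_iff₀ hn]
    push_cast
    linarith
  linarith

theorem exists_bij : Nonempty ((ℕ → ℕ) ≃ ℝ) := by
  rw [← Cardinal.eq]
  rw [Cardinal.mk_real]
  simp

/-- The tail of a sequence. -/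
def tail (y : ℕ → ℕ) : ℕ → ℕ := fun k => y (k + 1)

/-- The embedding of `C` into the scatteredly continuous functions. -/
noncomputable def phi (b : (ℕ → ℕ) ≃ ℝ) (x : ℝ → ℝ) (y : ℕ → ℕ) : ℝ :=
  max (x (b (tail y)) - 1 / ((y 0 : ℝ) + 1)) 0

theorem continuous_phi (b : (ℕ → ℕ) ≃ ℝ) : Continuous (phi b) := by
  refine continuous_pi fun y => ?_
  unfold phi
  exact ((continuous_apply _).sub continuous_const).max continuous_const

theorem injOn_phi (b : (ℕ → ℕ) ≃ ℝ) : InjOn (phi b) C := by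
  have key : ∀ x ∈ C, ∀ x' ∈ C, phi b x = phi b x' → ∀ t, x' t ≤ x t := by
    intro x hx x' hx' h t
    by_contra hlt
    push Not at hlt
    have hpos : 0 < x' t := lt_of_le_of_lt (hx.1 t) hlt
    obtain ⟨n, hn⟩ := exists_nat_one_div_lt hpos
    let y : ℕ → ℕ := fun k => Nat.casesOn k n (fun j => b.symm t j)
    have hy0 : y 0 = n := rfl
    have hyt : tail y = b.symm t := rfl
    have h1 := congrFun h y
    simp only [phi, hyt, hy0, Equiv.apply_symm_apply] at h1
    have h2 : max (x' t - 1 / ((n : ℝ) + 1)) 0 = x' t - 1 / ((n : ℝ) + 1) :=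
      max_eq_left (by linarith)
    rw [h2] at h1
    rcases max_cases (x t - 1 / ((n : ℝ) + 1)) 0 with ⟨h3, -⟩ | ⟨h3, -⟩
    · rw [h3] at h1; linarith
    · rw [h3] at h1; linarith
  intro x hx x' hx' h
  funext t
  exact le_antisymm (key x' hx' x hx h.symm t) (key x hx x' hx' h t)

theorem tail_zero_injective {y z : ℕ → ℕ} (h0 : y 0 = z 0) (h : tail y = tail z) : y = z := by
  funext k
  cases k with
  | zero => exact h0
  | succ j => exact congrFun h j

theorem sc_phi (b : (ℕ → ℕ) ≃ ℝ) {x : ℝ → ℝ} (hx : x ∈ C) :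
    ScatteredlyContinuous (phi b x) := by
  rintro A ⟨a₀, ha₀⟩
  set n : ℕ := a₀ 0 with hn
  -- the clopen piece of the Baire space
  let U : Set (ℕ → ℕ) := {y | y 0 = n}
  have hc0 : Continuous (fun y : ℕ → ℕ => y 0) := continuous_apply 0
  have hU : IsOpen U := (isOpen_discrete ({n} : Set ℕ)).preimage hc0
  -- the finite set of points of the piece at which the function does not vanish
  let S : Set (ℕ → ℕ) := {y | y ∈ U ∧ phi b x y ≠ 0}
  have hS : S.Finite := by
    refine Set.Finite.of_injOn (f := fun y => b (tail y)) (t := {t | 1 / ((n : ℝ) + 1) < x t})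
      ?_ ?_ (finite_big hx n)
    · rintro y ⟨hy, hne⟩
      have hy' : y 0 = n := hy
      simp only [mem_setOf_eq]
      by_contra hcon
      push Not at hcon
      apply hne
      simp only [phi, hy']
      exact max_eq_right (by linarith)
    · rintro y ⟨hy, -⟩ z ⟨hz, -⟩ hyz
      have h1 : y 0 = z 0 := (show y 0 = n from hy).trans (show z 0 = n from hz).symm
      exact tail_zero_injective h1 (b.injective hyz)
  by_cases hex : ∃ a ∈ A, a ∈ U ∧ a ∉ S
  · obtain ⟨a, haA, haU, haS⟩ := hex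
    refine ⟨a, haA, ?_⟩
    have hO : IsOpen (U ∩ Sᶜ) := hU.inter hS.isClosed.isOpen_compl
    have hev : phi b x =ᶠ[𝓝 a] fun _ => 0 := by
      filter_upwards [hO.mem_nhds ⟨haU, haS⟩] with y hy
      by_contra hne
      exact hy.2 ⟨hy.1, hne⟩
    exact (continuousAt_const.congr hev.symm).continuousWithinAt
  · push Not at hex
    -- `A ∩ U` is finite, so `a₀` is isolated in `A`
    have hfin : (A ∩ U).Finite := hS.subset fun a ha => hex a ha.1 ha.2
    refine ⟨a₀, ha₀, ?_⟩
    have hfin' : ((A ∩ U) \ {a₀}).Finite := hfin.subset diff_subset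
    have hO : IsOpen (U ∩ ((A ∩ U) \ {a₀})ᶜ) := hU.inter hfin'.isClosed.isOpen_compl
    have hmem : (U ∩ ((A ∩ U) \ {a₀})ᶜ) ∩ A ∈ 𝓝[A] a₀ := by
      rw [inter_comm]
      exact inter_mem_nhdsWithin A (hO.mem_nhds ⟨hn.symm, fun h => h.2 rfl⟩)
    have hsub : (U ∩ ((A ∩ U) \ {a₀})ᶜ) ∩ A ⊆ {a₀} := by
      rintro y ⟨⟨hyU, hy⟩, hyA⟩
      by_contra hne
      exact hy ⟨⟨hyA, hyU⟩, hne⟩
    have hle : 𝓝[A] a₀ ≤ pure a₀ := by
      rw [Filter.le_pure_iff]
      exact Filter.mem_of_superset hmem hsub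
    exact (tendsto_pure_nhds (phi b x) a₀).mono_left hle

theorem not_secondCountable_C : ¬ SecondCountableTopology C := by
  classical
  intro hsc
  have hmem : ∀ t : ℝ, (Pi.single t (1 : ℝ) : ℝ → ℝ) ∈ C := by
    intro t
    refine ⟨fun s => ?_, fun F => ?_⟩
    · by_cases h : s = t
      · subst h; simp
      · simp [h]
    · have h1 : ∑ s ∈ F, (Pi.single t (1 : ℝ) : ℝ → ℝ) s = ∑ s ∈ F, if s = t then (1 : ℝ) else 0 :=
        Finset.sum_congr rfl fun s _ => by rw [Pi.single_apply]
      rw [h1, Finset.sum_ite_eq']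
      split_ifs <;> norm_num
  let O : ℝ → Set C := fun t => {x | 1 / 2 < x.1 t}
  have hO : ∀ t ∈ (univ : Set ℝ), IsOpen (O t) := fun t _ =>
    isOpen_lt continuous_const ((continuous_apply t).comp continuous_subtype_val)
  have hne : ∀ t ∈ (univ : Set ℝ), (O t).Nonempty := fun t _ =>
    ⟨⟨Pi.single t 1, hmem t⟩, by
      show (1 / 2 : ℝ) < (Pi.single t (1 : ℝ) : ℝ → ℝ) t
      rw [Pi.single_eq_same]; norm_num⟩
  have hd : (univ : Set ℝ).PairwiseDisjoint O := by
    intro s _ t _ hst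
    rw [Function.onFun, Set.disjoint_left]
    intro x hx1 hx2
    have h1 : (1 / 2 : ℝ) < x.1 s := hx1
    have h2 : (1 / 2 : ℝ) < x.1 t := hx2
    have := x.2.2 {s, t}
    rw [Finset.sum_pair hst] at this
    linarith
  have hc : (univ : Set ℝ).Countable := hd.countable_of_isOpen hO hne
  exact Cardinal.not_countable_real hc

/-- There is a compact set `K` of scatteredly continuous real-valued functions on the Baire space
(with the topology of pointwise convergence) that is homeomorphic to a compact convex subset of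
`ℝ^𝔠` and is not metrizable. -/
theorem result : ∃ K : Set ((ℕ → ℕ) → ℝ),
    (∀ f ∈ K, ScatteredlyContinuous f) ∧ IsCompact K ∧
    (∃ C : Set (ℝ → ℝ), IsCompact C ∧ Convex ℝ C ∧ Nonempty (K ≃ₜ C)) ∧
    ¬ TopologicalSpace.MetrizableSpace K := by
  obtain ⟨b⟩ := exists_bij
  haveI hcs : CompactSpace C := isCompact_iff_compactSpace.1 isCompact_C
  have hemb : IsClosedEmbedding (fun x : C => phi b x.1) := by
    refine ((continuous_phi b).comp continuous_subtype_val).isClosedEmbedding ?_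
    intro x x' h
    exact Subtype.ext (injOn_phi b x.2 x'.2 h)
  let e : C ≃ₜ range (fun x : C => phi b x.1) := hemb.isEmbedding.toHomeomorph
  refine ⟨range (fun x : C => phi b x.1), ?_, isCompact_range hemb.continuous,
    ⟨C, isCompact_C, convex_C, ⟨e.symm⟩⟩, ?_⟩
  · rintro _ ⟨x, rfl⟩
    exact sc_phi b x.2
  · intro hmet
    haveI : TopologicalSpace.MetrizableSpace C := e.isEmbedding.metrizableSpace
    letI := TopologicalSpace.metrizableSpaceMetric C
    exact not_secondCountable_C inferInstance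

end Pool.Agent.Results.MP_69956f_gt.NonMetrizable
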